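import Pool.Agent.H643R2.ChainDec

/-!
Discrepancy of set systems closed under union and intersection.
-/

set_option autoImplicit false

open Finset

namespace Q123.BF

open Pool.Agent.H643R2.ChainDec (IsAC CDec dilworth)

/-- alternating sums -/
lemma alt_sum (k : ℕ) (u : ℕ → ℤ) (hu : ∀ c, c < k → u c = 0 ∨ u c = (-1) ^ c) :
    ∑ c ∈ range k, u c ≤ (((k + 1) / 2 : ℕ) : ℤ) ∧ -((k / 2 : ℕ) : ℤ) ≤ ∑ c ∈ range k, u c := by
  induction k with
  | zero => simp
  | succ k ih =>
    obtain ⟨h1, h2⟩ := ih fun c hc => hu c (by omega)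
    rw [sum_range_succ]
    rcases Nat.even_or_odd k with hk | hk
    · have h3 := hu k (by omega)
      rw [hk.neg_one_pow] at h3
      obtain ⟨j, rfl⟩ := hk
      constructor <;> rcases h3 with h3 | h3 <;> omega
    · have h3 := hu k (by omega)
      rw [hk.neg_one_pow] at h3
      obtain ⟨j, rfl⟩ := hk
      constructor <;> rcases h3 with h3 | h3 <;> omega

/-- colouring along the chains of a decomposition -/
lemma chain_col {α : Type} [Fintype α] [PartialOrder α] {k : ℕ} {f : α → Fin k}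
    (hf : f ∈ CDec α k) : ∃ χ : α → ℤ, (∀ a, χ a = 1 ∨ χ a = -1) ∧
      ∀ S : Finset α, (∀ a ∈ S, ∀ b, b ≤ a → b ∈ S) → |∑ a ∈ S, χ a| ≤ (((k + 1) / 2 : ℕ) : ℤ) := by
  classical
  let pos : α → ℕ := fun a => (univ.filter fun b => f b = f a ∧ b < a).card
  refine ⟨fun a => (-1) ^ (f a : ℕ) * (-1) ^ pos a, fun a => ?_, fun S hS => ?_⟩
  · have := neg_one_pow_eq_or ℤ ((f a : ℕ) + pos a)
    rwa [pow_add] at this
  · -- each chain
    have hc : ∀ c : ℕ, c < k → ∑ a ∈ S.filter (fun a => (f a : ℕ) = c),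
        (-1 : ℤ) ^ (f a : ℕ) * (-1) ^ pos a = 0 ∨ ∑ a ∈ S.filter (fun a => (f a : ℕ) = c),
        (-1 : ℤ) ^ (f a : ℕ) * (-1) ^ pos a = (-1) ^ c := by
      intro c _
      set T := S.filter (fun a => (f a : ℕ) = c) with hT
      have hTf : ∀ a ∈ T, ∀ b ∈ T, f a = f b := by
        intro a ha b hb
        apply Fin.ext
        rw [(mem_filter.1 ha).2, (mem_filter.1 hb).2]
      have hinj : Set.InjOn pos (T : Set α) := by
        have hlt : ∀ a ∈ T, ∀ b ∈ T, a < b → pos a < pos b := by
          intro a ha b hb hab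
          apply card_lt_card
          rw [ssubset_iff_of_subset]
          · refine ⟨a, mem_filter.2 ⟨mem_univ _, hTf a ha b hb, hab⟩, ?_⟩
            intro h
            exact absurd (mem_filter.1 h).2.2 (lt_irrefl _)
          · intro x hx
            rw [mem_filter] at hx ⊢
            exact ⟨mem_univ _, hx.2.1.trans (hTf a ha b hb), hx.2.2.trans hab⟩
        intro a ha b hb hab
        by_contra hne
        rcases hf a b (hTf a ha b hb) with h | h
        · exact absurd hab (hlt a ha b hb (lt_of_le_of_ne h hne)).ne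
        · exact absurd hab (hlt b hb a ha (lt_of_le_of_ne h (Ne.symm hne))).ne'
      have himg : T.image pos = range T.card := by
        apply eq_of_subset_of_card_le
        · intro i hi
          obtain ⟨a, ha, rfl⟩ := mem_image.1 hi
          rw [mem_range]
          apply card_lt_card
          rw [ssubset_iff_of_subset]
          · refine ⟨a, ha, ?_⟩
            intro h
            exact absurd (mem_filter.1 h).2.2 (lt_irrefl _)
          · intro x hx
            rw [mem_filter] at hx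
            refine mem_filter.2 ⟨hS a (mem_filter.1 ha).1 x hx.2.2.le, ?_⟩
            rw [hx.2.1]
            exact (mem_filter.1 ha).2
        · rw [card_range, card_image_of_injOn hinj]
      have hsum : ∑ a ∈ T, (-1 : ℤ) ^ (f a : ℕ) * (-1) ^ pos a =
          (-1) ^ c * ∑ i ∈ range T.card, (-1 : ℤ) ^ i := by
        rw [← himg, sum_image hinj, mul_sum]
        refine sum_congr rfl fun a ha => ?_
        rw [(mem_filter.1 ha).2]
      rw [hsum, neg_one_geom_sum]
      split_ifs
      · left; rw [mul_zero]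
      · right; rw [mul_one]
    have htot : ∑ a ∈ S, (-1 : ℤ) ^ (f a : ℕ) * (-1) ^ pos a = ∑ c ∈ range k,
        ∑ a ∈ S.filter (fun a => (f a : ℕ) = c), (-1 : ℤ) ^ (f a : ℕ) * (-1) ^ pos a :=
      (sum_fiberwise_of_maps_to (fun a _ => mem_range.2 (f a).2) _).symm
    obtain ⟨h1, h2⟩ := alt_sum k _ hc
    rw [htot, abs_le]
    refine ⟨le_trans ?_ h2, h1⟩
    have : k / 2 ≤ (k + 1) / 2 := by omega
    have : ((k / 2 : ℕ) : ℤ) ≤ (((k + 1) / 2 : ℕ) : ℤ) := by exact_mod_cast this
    linarith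

section
variable {n : ℕ} (F : Finset (Finset (Fin n)))

/-- the points covered by the system -/
def Pt : Type := {v : Fin n // ∃ S ∈ F, v ∈ S}

/-- every set that contains `w` contains `v` -/
def pre (v w : Fin n) : Prop := ∀ S ∈ F, w ∈ S → v ∈ S

instance : PartialOrder (Pt F) where
  le v w := pre F v.1 w.1 ∧ (pre F w.1 v.1 → v.1 ≤ w.1)
  le_refl v := ⟨fun _ _ h => h, fun _ => le_refl _⟩
  le_trans v w x h1 h2 := by
    refine ⟨fun S hS h => h1.1 S hS (h2.1 S hS h), fun h3 => ?_⟩
    have h4 : pre F w.1 v.1 := fun S hS h => h2.1 S hS (h3 S hS h)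
    have h5 : pre F x.1 w.1 := fun S hS h => h3 S hS (h1.1 S hS h)
    exact (h1.2 h4).trans (h2.2 h5)
  le_antisymm v w h1 h2 := by
    apply Subtype.ext
    exact le_antisymm (h1.2 h2.1) (h2.2 h1.1)

noncomputable instance : Fintype (Pt F) := by
  classical
  unfold Pt
  infer_instance

variable {F}

/-- traces on antichains -/
lemma trace (hU : ∀ S ∈ F, ∀ T ∈ F, S ∪ T ∈ F) (hI : ∀ S ∈ F, ∀ T ∈ F, S ∩ T ∈ F)
    {A : Finset (Pt F)} (hA : IsAC A) (B : Finset (Pt F)) (hBne : B.Nonempty) : B ⊆ A →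
      ∃ S ∈ F, ∀ a ∈ A, (a.1 ∈ S ↔ a ∈ B) := by
  classical
  induction hBne using Finset.Nonempty.cons_induction with
  | singleton b =>
    intro hb
    have hbA : b ∈ A := hb (mem_singleton_self b)
    obtain ⟨S0, hS0, hbS0⟩ := b.2
    obtain ⟨M, hM, hmin⟩ := exists_min_image (F.filter fun S => b.1 ∈ S) (fun S => S.card)
      ⟨S0, mem_filter.2 ⟨hS0, hbS0⟩⟩
    rw [mem_filter] at hM
    refine ⟨M, hM.1, fun a ha => ?_⟩
    rw [mem_singleton]
    constructor
    · intro haM
      have hpre : pre F a.1 b.1 := by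
        intro S hS hbS
        have h1 : S ∩ M ∈ F := hI S hS M hM.1
        have h2 := hmin (S ∩ M) (mem_filter.2 ⟨h1, mem_inter.2 ⟨hbS, hM.2⟩⟩)
        have h3 : S ∩ M = M := eq_of_subset_of_card_le inter_subset_right h2
        rw [← h3] at haM
        exact (mem_inter.1 haM).1
      by_cases hpre' : pre F b.1 a.1
      · rcases le_total a.1 b.1 with h | h
        · exact hA a ha b hbA ⟨hpre, fun _ => h⟩
        · exact (hA b hbA a ha ⟨hpre', fun _ => h⟩).symm
      · exact hA a ha b hbA ⟨hpre, fun h => absurd h hpre'⟩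
    · intro h
      rw [h]
      exact hM.2
  | cons b B hb hBne ih =>
    intro hbB
    obtain ⟨S, hS, h1⟩ := ih fun x hx => hbB (mem_cons_of_mem hx)
    have hbA : b ∈ A := hbB (mem_cons_self b B)
    obtain ⟨S0, hS0, hbS0⟩ := b.2
    obtain ⟨M, hM, hmin⟩ := exists_min_image (F.filter fun S => b.1 ∈ S) (fun S => S.card)
      ⟨S0, mem_filter.2 ⟨hS0, hbS0⟩⟩
    rw [mem_filter] at hM
    refine ⟨S ∪ M, hU S hS M hM.1, fun a ha => ?_⟩
    rw [mem_union, h1 a ha, mem_cons]
    constructor
    · rintro (h | haM)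
      · exact Or.inr h
      · left
        have hpre : pre F a.1 b.1 := by
          intro S hS hbS
          have h1 : S ∩ M ∈ F := hI S hS M hM.1
          have h2 := hmin (S ∩ M) (mem_filter.2 ⟨h1, mem_inter.2 ⟨hbS, hM.2⟩⟩)
          have h3 : S ∩ M = M := eq_of_subset_of_card_le inter_subset_right h2
          rw [← h3] at haM
          exact (mem_inter.1 haM).1
        by_cases hpre' : pre F b.1 a.1
        · rcases le_total a.1 b.1 with h | h
          · exact hA a ha b hbA ⟨hpre, fun _ => h⟩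
          · exact (hA b hbA a ha ⟨hpre', fun _ => h⟩).symm
        · exact hA a ha b hbA ⟨hpre, fun h => absurd h hpre'⟩
    · rintro (h | h)
      · rw [h]
        exact Or.inr hM.2
      · exact Or.inl h

lemma width (hU : ∀ S ∈ F, ∀ T ∈ F, S ∪ T ∈ F) (hI : ∀ S ∈ F, ∀ T ∈ F, S ∩ T ∈ F) {t : ℕ}
    (ht : ∀ v, (F.filter fun S => v ∈ S).card ≤ t) (A : Finset (Pt F)) (hA : IsAC A) :
    A.card ≤ Nat.log 2 t + 1 := by
  classical
  rcases A.eq_empty_or_nonempty with rfl | ⟨w, hw⟩
  · simp
  · have h1 : ∀ B : Finset (Pt F), B ⊆ A.erase w → ∃ S ∈ F, ∀ a ∈ A, (a.1 ∈ S ↔ a ∈ insert w B) :=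
      fun B hB => trace hU hI hA (insert w B) (insert_nonempty _ _)
        (insert_subset hw (hB.trans (erase_subset _ _)))
    choose! g hgF hg using h1
    have h2 : ((A.erase w).powerset).card ≤ (F.filter fun S => w.1 ∈ S).card := by
      apply card_le_card_of_injOn g
      · intro B hB
        have hB' := mem_powerset.1 hB
        exact mem_filter.2 ⟨hgF B hB', (hg B hB' w hw).2 (mem_insert_self _ _)⟩
      · intro B hB B' hB' hBB
        have hB := mem_powerset.1 hB
        have hB' := mem_powerset.1 hB'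
        have h3 : ∀ a ∈ A, (a ∈ insert w B ↔ a ∈ insert w B') := by
          intro a ha
          rw [← hg B hB a ha, ← hg B' hB' a ha, hBB]
        ext a
        constructor
        · intro ha
          have haA := mem_erase.1 (hB ha)
          exact (mem_insert.1 ((h3 a haA.2).1 (mem_insert_of_mem ha))).resolve_left haA.1
        · intro ha
          have haA := mem_erase.1 (hB' ha)
          exact (mem_insert.1 ((h3 a haA.2).2 (mem_insert_of_mem ha))).resolve_left haA.1
    rw [card_powerset, card_erase_of_mem hw] at h2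
    have h4 := Nat.le_log_of_pow_le Nat.one_lt_two (h2.trans (ht w.1))
    omega

theorem upper (hU : ∀ S ∈ F, ∀ T ∈ F, S ∪ T ∈ F) (hI : ∀ S ∈ F, ∀ T ∈ F, S ∩ T ∈ F) {t : ℕ}
    (ht : ∀ v, (F.filter fun S => v ∈ S).card ≤ t) :
    ∃ χ : Fin n → ℤ, (∀ i, χ i = 1 ∨ χ i = -1) ∧
      ∀ S ∈ F, |∑ i ∈ S, χ i| ≤ (((Nat.log 2 t + 2) / 2 : ℕ) : ℤ) := by
  classical
  obtain ⟨f, hf⟩ := dilworth (α := Pt F) (Nat.log 2 t + 1) (width hU hI ht)
  obtain ⟨χ, h1, h2⟩ := chain_col hf
  refine ⟨fun i => if h : ∃ S ∈ F, i ∈ S then χ ⟨i, h⟩ else 1, fun i => ?_, fun S hS => ?_⟩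
  · by_cases h : ∃ S ∈ F, i ∈ S
    · simp only [dif_pos h]
      exact h1 _
    · simp only [dif_neg h]
      exact Or.inl trivial
  · have h3 := h2 (univ.filter fun a : Pt F => a.1 ∈ S) (by
      intro a ha b hb
      rw [mem_filter] at ha ⊢
      exact ⟨mem_univ _, hb.1 S hS ha.2⟩)
    have h4 : ∑ i ∈ S, (if h : ∃ S ∈ F, i ∈ S then χ ⟨i, h⟩ else 1) =
        ∑ a ∈ (univ.filter fun a : Pt F => a.1 ∈ S), χ a := by
      symm
      refine sum_bij (fun a _ => a.1) ?_ ?_ ?_ ?_
      · intro a ha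
        exact (mem_filter.1 ha).2
      · intro a _ b _ hab
        exact Subtype.ext hab
      · intro i hi
        exact ⟨⟨i, S, hS, hi⟩, mem_filter.2 ⟨mem_univ _, hi⟩, rfl⟩
      · intro a _
        rw [dif_pos a.2]
        rfl
    rw [h4]
    exact h3

end

/-- the lower bound: all subsets of a set with `Nat.log 2 t + 1` elements -/
theorem lower {t : ℕ} (ht : 0 < t) : ∃ (n : ℕ) (F : Finset (Finset (Fin n))),
    (∀ S ∈ F, ∀ T ∈ F, S ∪ T ∈ F) ∧ (∀ S ∈ F, ∀ T ∈ F, S ∩ T ∈ F) ∧
    (∀ v, (F.filter fun S => v ∈ S).card ≤ t) ∧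
    ∀ χ : Fin n → ℤ, (∀ i, χ i = 1 ∨ χ i = -1) →
      ∃ S ∈ F, (((Nat.log 2 t + 2) / 2 : ℕ) : ℤ) ≤ |∑ i ∈ S, χ i| := by
  classical
  refine ⟨Nat.log 2 t + 1, univ, fun _ _ _ _ => mem_univ _, fun _ _ _ _ => mem_univ _, ?_, ?_⟩
  · intro v
    have h1 : (univ.filter fun S : Finset (Fin (Nat.log 2 t + 1)) => v ∈ S).card ≤
        ((univ.erase v : Finset (Fin (Nat.log 2 t + 1))).powerset).card := by
      apply card_le_card_of_injOn (fun S => S.erase v)
      · intro S _
        exact mem_powerset.2 (erase_subset_erase _ (subset_univ _))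
      · intro S hS T hT hST
        have hS := (mem_filter.1 hS).2
        have hT := (mem_filter.1 hT).2
        have hST : S.erase v = T.erase v := hST
        rw [← insert_erase hS, ← insert_erase hT, hST]
    rw [card_powerset, card_erase_of_mem (mem_univ _), card_univ, Fintype.card_fin,
      Nat.add_sub_cancel] at h1
    exact h1.trans (Nat.pow_log_le_self 2 ht.ne')
  · intro χ hχ
    set P := univ.filter fun i => χ i = 1 with hP
    set Q := univ.filter fun i => χ i = -1 with hQ
    have hPQ : P.card + Q.card = Nat.log 2 t + 1 := by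
      have e1 : P ∪ Q = univ := by
        ext i
        rw [mem_union, mem_filter, mem_filter]
        exact ⟨fun _ => mem_univ _, fun _ => (hχ i).imp (fun h => ⟨mem_univ _, h⟩)
          (fun h => ⟨mem_univ _, h⟩)⟩
      rw [← card_union_of_disjoint, e1, card_univ, Fintype.card_fin]
      · rw [disjoint_left]
        intro i hi hi'
        have h1 := (mem_filter.1 hi).2
        have h2 := (mem_filter.1 hi').2
        omega
    have hsP : ∑ i ∈ P, χ i = P.card := by
      rw [sum_congr rfl fun i hi => (mem_filter.1 hi).2, sum_const, nsmul_eq_mul, mul_one]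
    have hsQ : ∑ i ∈ Q, χ i = -Q.card := by
      rw [sum_congr rfl fun i hi => (mem_filter.1 hi).2, sum_const, nsmul_eq_mul, mul_neg, mul_one]
    rcases le_total Q.card P.card with h | h
    · refine ⟨P, mem_univ _, ?_⟩
      rw [hsP, abs_of_nonneg (Nat.cast_nonneg _)]
      have : (Nat.log 2 t + 2) / 2 ≤ P.card := by omega
      exact_mod_cast this
    · refine ⟨Q, mem_univ _, ?_⟩
      rw [hsQ, abs_neg, abs_of_nonneg (Nat.cast_nonneg _)]
      have : (Nat.log 2 t + 2) / 2 ≤ Q.card := by omega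
      exact_mod_cast this

end Q123.BF
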